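import Pool.Agent.W488.IW.Stm

set_option autoImplicit false

namespace Pool.Agent.W769.IW.Qk

open Pool.Agent.W488.IW MeasureTheory Set Filter Topology

/-- unnormalised tent -/
noncomputable def tent (n : ℕ) (t : ℝ) : ℝ := max (1 - n * |t - 1|) 0

lemma tent_nonneg (n : ℕ) (t : ℝ) : 0 ≤ tent n t := le_max_right _ _

lemma tent_zero (n : ℕ) (hn : 2 ≤ n) (t : ℝ) (h : 1 / (n : ℝ) ≤ |t - 1|) : tent n t = 0 := by
  unfold tent
  have hn' : (0 : ℝ) < n := by positivity
  apply max_eq_right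
  have := (div_le_iff₀ hn').1 h
  linarith

lemma tent_cont (n : ℕ) : Continuous (tent n) := by unfold tent; fun_prop

lemma tent_bump (n : ℕ) (hn : 2 ≤ n) : Bump (tent n) where
  nonneg := tent_nonneg n
  lip := by
    refine ⟨(n : NNReal), ?_⟩
    rw [lipschitzWith_iff_dist_le_mul]
    intro x y
    unfold tent
    rw [Real.dist_eq, Real.dist_eq]
    calc |max (1 - n * |x - 1|) 0 - max (1 - n * |y - 1|) 0|
        ≤ |(1 - n * |x - 1|) - (1 - n * |y - 1|)| := abs_max_sub_max_le_abs _ _ _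
      _ = n * |(|x - 1| - |y - 1|)| := by
          rw [show (1 - (n : ℝ) * |x - 1|) - (1 - n * |y - 1|) = -(n * (|x - 1| - |y - 1|)) by ring,
            abs_neg, abs_mul, Nat.abs_cast]
      _ ≤ n * |x - y| := by
          have := abs_abs_sub_abs_le (x - 1) (y - 1)
          rw [show x - 1 - (y - 1) = x - y by ring] at this
          exact mul_le_mul_of_nonneg_left this (Nat.cast_nonneg n)
      _ = ((n : NNReal) : ℝ) * |x - y| := by simp
  low := by
    intro t ht
    apply tent_zero n hn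
    have hn' : (2 : ℝ) ≤ n := by exact_mod_cast hn
    rw [abs_of_nonpos (by linarith), div_le_iff₀ (by positivity)]
    nlinarith
  high := by
    intro t ht
    apply tent_zero n hn
    have hn' : (2 : ℝ) ≤ n := by exact_mod_cast hn
    rw [abs_of_nonneg (by linarith), div_le_iff₀ (by positivity)]
    nlinarith

/-- the Lipschitz constant in `s` -/
noncomputable def Cc (x y : ℝ) : ℝ := 2 * (2 * x + y) + 4 * (x * (x + y) + (x + y) ^ 2) + 1

lemma Ks_lip {s x y : ℝ} (hs : 1 / 2 ≤ s) (hx : 0 ≤ x) (hy : 0 ≤ y) :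
    |Ks s x y - Ks 1 x y| ≤ Cc x y * |s - 1| := by
  unfold Ks Cc
  set A := max (x + y - s) 0 with hA
  set B := max (x + y - 1) 0 with hB
  set A' := max (x - y - s) 0 with hA'
  set B' := max (x - y - 1) 0 with hB'
  have hAB : |A - B| ≤ |s - 1| := by
    have := abs_max_sub_max_le_abs (x + y - s) (x + y - 1) 0
    rw [← hA, ← hB] at this
    refine this.trans (le_of_eq ?_)
    rw [show x + y - s - (x + y - 1) = -(s - 1) by ring, abs_neg]
  have hAB' : |A' - B'| ≤ |s - 1| := by
    have := abs_max_sub_max_le_abs (x - y - s) (x - y - 1) 0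
    rw [← hA', ← hB'] at this
    refine this.trans (le_of_eq ?_)
    rw [show x - y - s - (x - y - 1) = -(s - 1) by ring, abs_neg]
  have hs0 : 0 < s := by linarith
  have A0 : 0 ≤ A := le_max_right _ _
  have B0 : 0 ≤ B := le_max_right _ _
  have A1 : A ≤ x + y := by rw [hA]; apply max_le <;> linarith
  have B1 : B ≤ x + y := by rw [hB]; apply max_le <;> linarith
  -- algebra
  have key : (x * A - A ^ 2 / 2) / s + A' - ((x * B - B ^ 2 / 2) / 1 + B')
      = (A - B) * (x - (A + B) / 2) / s + (x * B - B ^ 2 / 2) * (1 - s) / s + (A' - B') := by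
    field_simp
    ring
  rw [key]
  have h1 : |(A - B) * (x - (A + B) / 2) / s| ≤ 2 * (2 * x + y) * |s - 1| := by
    rw [abs_div, abs_mul, abs_of_pos hs0, div_le_iff₀ hs0]
    have h2 : |x - (A + B) / 2| ≤ 2 * x + y := by
      rw [abs_le]; constructor <;> linarith
    calc |A - B| * |x - (A + B) / 2| ≤ |s - 1| * (2 * x + y) := by gcongr
      _ ≤ 2 * (2 * x + y) * |s - 1| * s := by
          have : 0 ≤ |s - 1| * (2 * x + y) := by positivity
          nlinarith
  have h2 : |(x * B - B ^ 2 / 2) * (1 - s) / s| ≤ 4 * (x * (x + y) + (x + y) ^ 2) * |s - 1| := by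
    rw [abs_div, abs_mul, abs_of_pos hs0, div_le_iff₀ hs0, abs_sub_comm 1 s]
    have h3 : |x * B - B ^ 2 / 2| ≤ x * (x + y) + (x + y) ^ 2 := by
      rw [abs_le]; constructor <;> nlinarith [mul_nonneg hx B0, mul_le_mul_of_nonneg_left B1 hx, mul_le_mul B1 B1 B0 (by linarith)]
    calc |x * B - B ^ 2 / 2| * |s - 1| ≤ (x * (x + y) + (x + y) ^ 2) * |s - 1| := by gcongr
      _ ≤ 4 * (x * (x + y) + (x + y) ^ 2) * |s - 1| * s := by
          have : 0 ≤ (x * (x + y) + (x + y) ^ 2) * |s - 1| := by positivity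
          nlinarith
  calc |(A - B) * (x - (A + B) / 2) / s + (x * B - B ^ 2 / 2) * (1 - s) / s + (A' - B')|
      ≤ |(A - B) * (x - (A + B) / 2) / s| + |(x * B - B ^ 2 / 2) * (1 - s) / s| + |A' - B'| :=
        abs_add_three _ _ _
    _ ≤ 2 * (2 * x + y) * |s - 1| + 4 * (x * (x + y) + (x + y) ^ 2) * |s - 1| + |s - 1| := by
        gcongr
    _ = _ := by ring

lemma Ks_cont_s (x y : ℝ) : ContinuousOn (fun s => Ks s x y) (Icc (1 / 2) 2) := by
  unfold Ks
  apply ContinuousOn.add
  · apply ContinuousOn.div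
    · fun_prop
    · fun_prop
    · intro s hs; linarith [hs.1]
  · fun_prop

lemma tent_int_pos (n : ℕ) : 0 < ∫ s in (1 / 2 : ℝ)..2, tent n s := by
  apply intervalIntegral.integral_pos (by norm_num) (tent_cont n).continuousOn
  · intro x _; exact tent_nonneg n x
  · exact ⟨1, by norm_num, by simp [tent]⟩

/-- pointwise comparison -/
lemma fW_le (hF : S_FK) (n : ℕ) (hn : 2 ≤ n) {x y : ℝ} (hx : 0 ≤ x) (hy : 0 ≤ y) :
    fW (tent n) x y ≤ (∫ s in (1 / 2 : ℝ)..2, tent n s) * (Ks 1 x y + Cc x y * (1 / n)) := by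
  rw [hF _ (tent_bump n hn) x y hx hy, ← intervalIntegral.integral_mul_const]
  have hC : 0 ≤ Cc x y := by unfold Cc; positivity
  apply intervalIntegral.integral_mono_on (by norm_num)
  · apply ContinuousOn.intervalIntegrable
    rw [uIcc_of_le (by norm_num)]
    exact (tent_cont n).continuousOn.mul (Ks_cont_s x y)
  · exact ((tent_cont n).mul continuous_const).intervalIntegrable _ _
  · intro s hs
    by_cases h : 1 / (n : ℝ) ≤ |s - 1|
    · rw [tent_zero n hn s h]; simp
    · push Not at h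
      apply mul_le_mul_of_nonneg_left _ (tent_nonneg n s)
      have h1 := Ks_lip hs.1 hx hy
      have h2 : Cc x y * |s - 1| ≤ Cc x y * (1 / n) := by gcongr
      linarith [(abs_le.1 h1).2]

lemma div_cont {κ : ℝ → ℝ} (hκ : Bump κ) : Continuous (fun s => κ s / s) := by
  obtain ⟨L, hL⟩ := hκ.lip
  have : (fun s => κ s / s) = fun s => κ s / max s (1 / 2) := by
    funext s
    rcases le_total s (1 / 2) with h | h
    · rw [hκ.low s h]; simp
    · rw [max_eq_left h]
  rw [this]
  apply hL.continuous.div (by fun_prop)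
  intro s
  have : (1 / 2 : ℝ) ≤ max s (1 / 2) := le_max_right _ _
  linarith

lemma prim_cont {g : ℝ → ℝ} (hg : Continuous g) : Continuous (fun t => ∫ s in (0 : ℝ)..t, g s) :=
  intervalIntegral.continuous_primitive (fun a b => hg.intervalIntegrable a b) 0

lemma fW_cont {κ : ℝ → ℝ} (hκ : Bump κ) : Continuous (fun p : ℝ × ℝ => fW κ p.1 p.2) := by
  obtain ⟨L, hL⟩ := hκ.lip
  have h1 : Continuous (om κ) := prim_cont (prim_cont hL.continuous)
  have h2 : Continuous (hh κ) := prim_cont (prim_cont (div_cont hκ))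
  unfold fW
  fun_prop

lemma Ks_cont (s : ℝ) : Continuous (fun p : ℝ × ℝ => Ks s p.1 p.2) := by
  unfold Ks
  fun_prop

lemma ek_cont (k : Idx) : Continuous (ek k) := by unfold ek; fun_prop

lemma gd_cont (Λ : Finset Idx) (c : Idx → ℂ) : Continuous (gd Λ c) := by
  unfold gd tp
  have := ek_cont
  fun_prop

/-- `QC0` for the kernel at `s = 1` -/
lemma one (h : S_QW) (hF : S_FK) : QC0 (fun F => Ks 1 ‖F.1‖ ‖F.2‖) := by
  intro N c
  have hg := gd_cont (box N) c
  have hn : Continuous (fun x : V => ((‖(gd (box N) c x).1‖, ‖(gd (box N) c x).2‖) : ℝ × ℝ)) :=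
    hg.fst.norm.prodMk hg.snd.norm
  have hK : IntegrableOn (fun x : V => Ks 1 ‖(gd (box N) c x).1‖ ‖(gd (box N) c x).2‖)
      (Icc (0 : V) 1) := ((Ks_cont 1).comp hn).continuousOn.integrableOn_compact isCompact_Icc
  have hCc : Continuous (fun p : ℝ × ℝ => Cc p.1 p.2) := by unfold Cc; fun_prop
  have hC : IntegrableOn (fun x : V => Cc ‖(gd (box N) c x).1‖ ‖(gd (box N) c x).2‖)
      (Icc (0 : V) 1) := (hCc.comp hn).continuousOn.integrableOn_compact isCompact_Icc
  set J := ∫ x in Icc (0 : V) 1, Ks 1 ‖(gd (box N) c x).1‖ ‖(gd (box N) c x).2‖ with hJ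
  set C := ∫ x in Icc (0 : V) 1, Cc ‖(gd (box N) c x).1‖ ‖(gd (box N) c x).2‖ with hCd
  have step : ∀ n : ℕ, 2 ≤ n → 0 ≤ J + C * (1 / n) := by
    intro n h2
    have hb := tent_bump n h2
    have h0 := h (tent n) hb N c
    have h1 : ∫ x in Icc (0 : V) 1, fW (tent n) ‖(gd (box N) c x).1‖ ‖(gd (box N) c x).2‖
        ≤ ∫ x in Icc (0 : V) 1, (∫ s in (1 / 2 : ℝ)..2, tent n s) *
          (Ks 1 ‖(gd (box N) c x).1‖ ‖(gd (box N) c x).2‖
            + Cc ‖(gd (box N) c x).1‖ ‖(gd (box N) c x).2‖ * (1 / n)) := by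
      apply setIntegral_mono_on
      · exact ((fW_cont hb).comp hn).continuousOn.integrableOn_compact isCompact_Icc
      · exact (hK.add (hC.mul_const _)).const_mul _
      · exact measurableSet_Icc
      · intro x _
        exact fW_le hF n h2 (norm_nonneg _) (norm_nonneg _)
    rw [integral_const_mul, integral_add hK (hC.mul_const _), integral_mul_const] at h1
    have h3 := tent_int_pos n
    have h4 : 0 ≤ (∫ s in (1 / 2 : ℝ)..2, tent n s) * (J + C * (1 / n)) := le_trans h0 h1
    exact nonneg_of_mul_nonneg_right h4 h3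
  have lim : Tendsto (fun n : ℕ => J + C * (1 / (n : ℝ))) atTop (𝓝 (J + C * 0)) :=
    tendsto_const_nhds.add (tendsto_const_nhds.mul tendsto_one_div_atTop_nhds_zero_nat)
  have := ge_of_tendsto lim (eventually_atTop.2 ⟨2, fun n hn => step n hn⟩)
  simpa using this

lemma gd_scale (Λ : Finset Idx) (c : Idx → ℂ) (s : ℝ) (x : V) :
    gd Λ (fun k => c k / s) x = ((gd Λ c x).1 / s, (gd Λ c x).2 / s) := by
  unfold gd tp
  simp only [Finset.sum_div]
  refine Prod.ext ?_ ?_ <;> · simp only; apply Finset.sum_congr rfl; intro k _; ring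

lemma Ks_scale {s : ℝ} (hs : 0 < s) (x y : ℝ) : Ks s x y = s * Ks 1 (x / s) (y / s) := by
  unfold Ks
  have h1 : max (x + y - s) 0 = s * max (x / s + y / s - 1) 0 := by
    rw [mul_max_of_nonneg _ _ hs.le, mul_zero]; congr 1; field_simp
  have h2 : max (x - y - s) 0 = s * max (x / s - y / s - 1) 0 := by
    rw [mul_max_of_nonneg _ _ hs.le, mul_zero]; congr 1; field_simp
  rw [h1, h2]
  field_simp

theorem main (h : S_QW) (hF : S_FK) : S_QK := by
  intro s hs N c
  have h1 := one h hF N (fun k => c k / s)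
  simp only [gd_scale, norm_div, Complex.norm_real, Real.norm_of_nonneg hs.le] at h1
  have h2 : ∀ x : V, Ks s ‖(gd (box N) c x).1‖ ‖(gd (box N) c x).2‖
      = s * Ks 1 (‖(gd (box N) c x).1‖ / s) (‖(gd (box N) c x).2‖ / s) :=
    fun x => Ks_scale hs _ _
  simp only [h2, integral_const_mul]
  exact mul_nonneg hs.le h1

end Pool.Agent.W769.IW.Qk
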